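import Pool.Agent.Helper76.SGC.Goals
import Pool.Agent.Helper68.Ru.Siegel

/-!
# Packet SGC1-SIEA (project SG, part 1): the conditions can be solved
-/

set_option autoImplicit false

open MvPolynomial

namespace Pool.Agent.Helper2.SGC1

open WeierstrassCurve Height NumberField
open Pool.Agent.Helper92.Ru Pool.Agent.Helper42.SG
open Pool.Agent.Helper29.BL hiding sg
open Pool.Agent.Helper77.SGC (Arr sh N0 Forb HOUS MON)
open Pool.Agent.Helper76.SGC

noncomputable section

/-- sums over the functions which agree with `α0` outside of `i0`, `i1`. -/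
lemma sum_blk {ι : Type} [Fintype ι] [DecidableEq ι] (A : ι → Type) [∀ i, Fintype (A i)]
    [∀ i, DecidableEq (A i)] (i0 i1 : ι) (h01 : i0 ≠ i1) (α0 : ∀ i, A i) {R : Type}
    [AddCommMonoid R] (F : (∀ i, A i) → R) :
    (∑ α : ∀ i, A i, if (∀ h, h ≠ i0 → h ≠ i1 → α h = α0 h) then F α else 0) =
      ∑ x : A i0, ∑ x' : A i1, F (Function.update (Function.update α0 i0 x) i1 x') := by
  rw [← Finset.sum_filter, ← Finset.sum_product']
  refine Finset.sum_bij' (fun α _ => (α i0, α i1))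
    (fun y _ => Function.update (Function.update α0 i0 y.1) i1 y.2) ?_ ?_ ?_ ?_ ?_
  · intro α _
    simp
  · intro y _
    rw [Finset.mem_filter]
    refine ⟨Finset.mem_univ _, fun h h0 h1 => ?_⟩
    rw [Function.update_of_ne h1, Function.update_of_ne h0]
  · intro α hα
    rw [Finset.mem_filter] at hα
    funext h
    by_cases h1 : h = i1
    · subst h1
      simp
    · by_cases h0 : h = i0
      · subst h0
        simp [h1]
      · simp [h1, h0, hα.2 h h0 h1]
  · intro y _
    have e1 : Function.update (Function.update α0 i0 y.1) i1 y.2 i0 = y.1 := by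
      rw [Function.update_of_ne h01, Function.update_self]
    have e2 : Function.update (Function.update α0 i0 y.1) i1 y.2 i1 = y.2 := by
      rw [Function.update_self]
    show (Function.update (Function.update α0 i0 y.1) i1 y.2 i0,
      Function.update (Function.update α0 i0 y.1) i1 y.2 i1) = y
    rw [e1, e2]
  · intro α hα
    rw [Finset.mem_filter] at hα
    congr 1
    funext h
    by_cases h1 : h = i1
    · subst h1
      simp
    · by_cases h0 : h = i0
      · subst h0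
        simp [h1]
      · simp [h1, h0, hα.2 h h0 h1]

section arr

variable {K : Type} [Field K] {W : Affine K} {B : AbsoluteValue K ℝ → ℝ} {D e M : ℕ}
  {G : Bool → ℕ → Fin 2 → ℕ → ℕ → K}

lemma int_sg (hA : Arr W B D e M G) (l : Bool) (μ : Fin 2) (j g i m β : ℕ) (hm : m ≤ M) :
    IsIntegral ℤ ((D : K) ^ (4 ^ e * M) * sg G l μ j g i m β) := by
  unfold sg sh
  split_ifs
  · exact hA.int l m hm _ _ _
  · rw [mul_zero]
    exact isIntegral_zero
  · rw [mul_zero]
    exact isIntegral_zero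

lemma bd_sg (hA : Arr W B D e M G) (hB : ∀ v, 1 ≤ B v) (l : Bool) (μ : Fin 2) (j g i m β : ℕ)
    (hm : m ≤ M) (v : AbsoluteValue K ℝ) : v (sg G l μ j g i m β) ≤ B v ^ (4 ^ e * M) := by
  have h0 : (0 : ℝ) ≤ B v ^ (4 ^ e * M) := pow_nonneg (by linarith [hB v]) _
  unfold sg sh
  split_ifs
  · exact hA.bd l m hm v _ _ _
  · rw [v.map_zero]
    exact h0
  · rw [v.map_zero]
    exact h0

end arr

lemma v_nat {K : Type} [Field K] (v : AbsoluteValue K ℝ) (n : ℕ) : v (n : K) ≤ n := by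
  induction n with
  | zero => simp
  | succ n ih =>
    push_cast
    refine (v.add_le _ _).trans ?_
    rw [v.map_one]
    linarith

lemma hz_ne_ho {n : ℕ} (j : Fin n) : hz j ≠ ho j := by
  intro h
  have := congrArg Fin.val h
  simp only [hz, ho] at this
  omega

section entry

variable {K : Type} [Field K]

/-- the entry of the block `j`. -/
def ent (D : ℕ → ℕ) (n : ℕ) (e : ℕ → ℕ) (G : ℕ → Bool → ℕ → Fin 2 → ℕ → ℕ → K) (j : Fin n)
    (l l' : Bool) (μ μ' : Fin 2) (i i' g g' : ℕ) (x : Ax n e (hz j)) (x' : Ax n e (ho j))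
    (β : Fin 2 → Fin n) : K :=
  ((D 0 : K) ^ (4 ^ e j.val * n) * (D 1 : K) ^ (4 ^ e j.val * n)) *
    (sg (G (2 * j.val)) l μ i g x.1.val x.2.val (β 0).val *
      sg (G (2 * j.val + 1)) l' μ' i' g' x'.1.val x'.2.val (β 1).val)

/-- the Siegel matrix over `K`. -/
def entK (D : ℕ → ℕ) (n k0 : ℕ) (e : ℕ → ℕ) (G : ℕ → Bool → ℕ → Fin 2 → ℕ → ℕ → K)
    (r : Rows n k0 e) (u : Idx n n n e) : K :=
  if (∀ h, h ≠ hz r.1 → h ≠ ho r.1 → u.1 h = r.2.1.1 h) then
    ent D n e G r.1 r.2.2.1 r.2.2.2.1 r.2.2.2.2.1 r.2.2.2.2.2.1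
      (N0 n (e r.1.val) - 2 * r.2.2.2.2.1.val - r.2.2.2.2.2.2.1.val)
      (N0 n (e r.1.val) - 2 * r.2.2.2.2.2.1.val - r.2.2.2.2.2.2.2.1.val)
      r.2.2.2.2.2.2.2.2.1.val r.2.2.2.2.2.2.2.2.2.val (u.1 (hz r.1)) (u.1 (ho r.1)) u.2
  else 0

variable {W : ℕ → Affine K} {B : ℕ → AbsoluteValue K ℝ → ℝ} {D : ℕ → ℕ} {n : ℕ} {e : ℕ → ℕ}
  {G : ℕ → Bool → ℕ → Fin 2 → ℕ → ℕ → K}

lemma arr0 (hG : ArrV W B D n e G) (j : Fin n) :
    Arr (W 0) (B 0) (D 0) (e j.val) n (G (2 * j.val)) := by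
  have h := hG (2 * j.val) (by omega)
  rwa [show 2 * j.val % 2 = 0 by omega, show 2 * j.val / 2 = j.val by omega] at h

lemma arr1 (hG : ArrV W B D n e G) (j : Fin n) :
    Arr (W 1) (B 1) (D 1) (e j.val) n (G (2 * j.val + 1)) := by
  have h := hG (2 * j.val + 1) (by omega)
  rwa [show (2 * j.val + 1) % 2 = 1 by omega, show (2 * j.val + 1) / 2 = j.val by omega] at h

lemma int_ent (hG : ArrV W B D n e G) (j : Fin n) (l l' : Bool) (μ μ' : Fin 2) (i i' g g' : ℕ)
    (x : Ax n e (hz j)) (x' : Ax n e (ho j)) (β : Fin 2 → Fin n) :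
    IsIntegral ℤ (ent D n e G j l l' μ μ' i i' g g' x x' β) := by
  unfold ent
  rw [mul_mul_mul_comm]
  exact (int_sg (arr0 hG j) l μ i g _ _ _ (Nat.lt_succ_iff.1 x.2.2)).mul
    (int_sg (arr1 hG j) l' μ' i' g' _ _ _ (Nat.lt_succ_iff.1 x'.2.2))

lemma bd_ent (hG : ArrV W B D n e G) (hB : ∀ i v, 1 ≤ B i v) (j : Fin n) (l l' : Bool)
    (μ μ' : Fin 2) (i i' g g' : ℕ) (x : Ax n e (hz j)) (x' : Ax n e (ho j)) (β : Fin 2 → Fin n)
    (v : AbsoluteValue K ℝ) :
    v (ent D n e G j l l' μ μ' i i' g g' x x' β) ≤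
      ((D 0 : ℝ) * (D 1 : ℝ) * (B 0 v * B 1 v)) ^ (4 ^ e j.val * n) := by
  unfold ent
  rw [v.map_mul, v.map_mul, v.map_mul, v.map_pow, v.map_pow, mul_pow, mul_pow, mul_pow]
  have h0 := bd_sg (arr0 hG j) (hB 0) l μ i g x.1.val _ (β 0).val (Nat.lt_succ_iff.1 x.2.2) v
  have h1 := bd_sg (arr1 hG j) (hB 1) l' μ' i' g' x'.1.val _ (β 1).val
    (Nat.lt_succ_iff.1 x'.2.2) v
  have hB0 := hB 0 v
  have hB1 := hB 1 v
  refine mul_le_mul (mul_le_mul (pow_le_pow_left₀ (v.nonneg _) (v_nat v _) _)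
    (pow_le_pow_left₀ (v.nonneg _) (v_nat v _) _) (pow_nonneg (v.nonneg _) _) (by positivity))
    (mul_le_mul h0 h1 (v.nonneg _) (pow_nonneg (by linarith) _))
    (mul_nonneg (v.nonneg _) (v.nonneg _)) (by positivity)

lemma int_entK (hG : ArrV W B D n e G) (k0 : ℕ) (r : Rows n k0 e) (u : Idx n n n e) :
    IsIntegral ℤ (entK D n k0 e G r u) := by
  unfold entK
  split_ifs
  · exact int_ent hG _ _ _ _ _ _ _ _ _ _ _ _
  · exact isIntegral_zero

end entry

lemma sq_ge {n : ℕ} (e : ℕ → ℕ) (j : Fin n) : 4 ^ e j.val ≤ sq n e :=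
  Finset.single_le_sum (f := fun j => 4 ^ e j) (fun _ _ => Nat.zero_le _)
    (Finset.mem_range.2 j.2)

theorem siea (h1 : CARDA) (h2 : HOUS) : SIEA := by
  intro K _ _ W B D hB hD n k0 hn
  have hn1 : 1 ≤ n := (Nat.one_le_iff_ne_zero.2 (by positivity)).trans hn
  obtain ⟨c1, hc1, hS⟩ := Pool.Agent.Helper68.Ru.siegel K
  have hD0 : (1 : ℝ) ≤ (D 0 : ℝ) := by exact_mod_cast hD 0
  have hD1 : (1 : ℝ) ≤ (D 1 : ℝ) := by exact_mod_cast hD 1
  obtain ⟨b0, hb0, hH⟩ := h2 K (fun v => (D 0 : ℝ) * (D 1 : ℝ) * (B 0 v * B 1 v)) (fun v =>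
    one_le_mul_of_one_le_of_one_le (one_le_mul_of_one_le_of_one_le hD0 hD1)
      (one_le_mul_of_one_le_of_one_le (hB 0 v) (hB 1 v)))
  set Q : ℝ := c1 * c1 * (((n : ℝ) + 1) ^ (2 * n) * (n : ℝ) ^ 2) with hQ
  have hnr : (1 : ℝ) ≤ n := by exact_mod_cast hn1
  have hQ1 : 1 ≤ Q := one_le_mul_of_one_le_of_one_le (one_le_mul_of_one_le_of_one_le hc1 hc1)
    (one_le_mul_of_one_le_of_one_le (one_le_pow₀ (by linarith)) (one_le_pow₀ hnr))
  refine ⟨Real.log Q + 2 * n + n * Real.log b0, ?_, ?_⟩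
  · have := Real.log_nonneg hQ1
    have := Real.log_nonneg hb0
    positivity
  intro e G hG
  have hsq : 1 ≤ sq n e :=
    (Nat.one_le_pow _ _ (by norm_num)).trans (sq_ge e (⟨0, hn1⟩ : Fin n))
  have hsqr : (1 : ℝ) ≤ (sq n e : ℝ) := by exact_mod_cast hsq
  -- the matrix
  set a : Matrix (Rows n k0 e) (Idx n n n e) (𝓞 K) :=
    fun r u => ⟨entK D n k0 e G r u, int_entK hG k0 r u⟩ with ha
  have hacoe : ∀ r u, ((a r u : 𝓞 K) : K) = entK D n k0 e G r u := fun r u => rfl
  have hhouse : ∀ r u, house ((a r u : 𝓞 K) : K) ≤ b0 ^ (n * sq n e) := by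
    intro r u
    rw [hacoe]
    unfold entK
    split_ifs
    · refine (hH _ (4 ^ e r.1.val * n) fun v => bd_ent hG hB _ _ _ _ _ _ _ _ _ _ _ _ v).trans ?_
      refine pow_le_pow_right₀ hb0 ?_
      rw [mul_comm]
      exact Nat.mul_le_mul_left n (sq_ge e r.1)
    · exact (Pool.Agent.Helper68.Ru.house_zero' K).trans (by positivity)
  have hne : Nonempty (Idx n n n e) :=
    ⟨fun h => (⟨0, by positivity⟩, ⟨0, by omega⟩), fun _ => ⟨0, by omega⟩⟩
  have hA1 : (1 : ℝ) ≤ b0 ^ (n * sq n e) := one_le_pow₀ hb0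
  obtain ⟨ξ, hξ0, hξ, hξb⟩ := hS (Rows n k0 e) (Idx n n n e) a (b0 ^ (n * sq n e)) hA1
    (h1 n k0 e hn) (Fintype.card_pos_iff.2 hne) hhouse
  refine ⟨fun α => ((ξ α : 𝓞 K) : K), ?_, fun α => RingOfIntegers.isIntegral_coe _, ?_, ?_⟩
  · intro h
    apply hξ0
    funext α
    have h3 := congrFun h α
    exact RingOfIntegers.coe_eq_zero_iff.1 h3
  · intro α
    refine (hξb α).trans ?_
    -- the number of unknowns
    have hcard : (Fintype.card (Idx n n n e) : ℝ) ≤
        Real.exp (2 * n * sq n e) * (((n : ℝ) + 1) ^ (2 * n) * (n : ℝ) ^ 2) := by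
      have h3 : Fintype.card (Idx n n n e) =
          (∏ h : Fin (2 * n), (4 ^ e (h.val / 2) * (n + 1))) * n ^ 2 := by
        rw [Fintype.card_prod, Fintype.card_pi, Fintype.card_fun, Fintype.card_fin,
          Fintype.card_fin]
        congr 1
        refine Finset.prod_congr rfl fun h _ => ?_
        rw [Fintype.card_prod, Fintype.card_fin, Fintype.card_fin]
      rw [h3]
      push_cast
      rw [Finset.prod_mul_distrib, Finset.prod_const, Finset.card_univ, Fintype.card_fin]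
      have h4 : ∏ h : Fin (2 * n), (4 : ℝ) ^ e (h.val / 2) ≤
          ∏ _h : Fin (2 * n), Real.exp (sq n e) := by
        refine Finset.prod_le_prod (fun _ _ => by positivity) fun h _ => ?_
        have h5 : 4 ^ e (h.val / 2) ≤ sq n e := sq_ge e (⟨h.val / 2, by omega⟩ : Fin n)
        have h6 : (4 : ℝ) ^ e (h.val / 2) ≤ (sq n e : ℝ) := by exact_mod_cast h5
        have h7 := Real.add_one_le_exp (sq n e : ℝ)
        linarith
      rw [Finset.prod_const, Finset.card_univ, Fintype.card_fin, ← Real.exp_nat_mul] at h4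
      push_cast at h4
      rw [mul_assoc]
      exact mul_le_mul_of_nonneg_right h4 (by positivity)
    have hexp : Real.exp ((Real.log Q + 2 * n + n * Real.log b0) * sq n e) =
        Real.exp (Real.log Q * sq n e) * (Real.exp (2 * n * sq n e) * b0 ^ (n * sq n e)) := by
      have h3 : b0 ^ (n * sq n e) = Real.exp (n * Real.log b0 * sq n e) := by
        rw [← Real.exp_log (show (0 : ℝ) < b0 by linarith), ← Real.exp_nat_mul, Real.exp_log
          (show (0 : ℝ) < b0 by linarith)]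
        congr 1
        push_cast
        ring
      rw [h3, ← Real.exp_add, ← Real.exp_add]
      congr 1
      ring
    rw [hexp]
    have hQe : Q ≤ Real.exp (Real.log Q * sq n e) := by
      calc Q = Real.exp (Real.log Q * 1) := by
            rw [mul_one, Real.exp_log (by linarith)]
        _ ≤ Real.exp (Real.log Q * sq n e) :=
            Real.exp_le_exp.2 (mul_le_mul_of_nonneg_left hsqr (Real.log_nonneg hQ1))
    calc c1 * (c1 * (Fintype.card (Idx n n n e) : ℝ) * b0 ^ (n * sq n e))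
        ≤ c1 * (c1 * (Real.exp (2 * n * sq n e) * (((n : ℝ) + 1) ^ (2 * n) * (n : ℝ) ^ 2)) *
            b0 ^ (n * sq n e)) := by
          have : 0 ≤ c1 := by linarith
          gcongr
      _ = Q * (Real.exp (2 * n * sq n e) * b0 ^ (n * sq n e)) := by
          rw [hQ]
          ring
      _ ≤ Real.exp (Real.log Q * sq n e) *
            (Real.exp (2 * n * sq n e) * b0 ^ (n * sq n e)) :=
          mul_le_mul_of_nonneg_right hQe (by positivity)
  · -- the conditions
    intro j α0' l l' μ μ' i i' hF g hg g' hg'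
    obtain ⟨hF1, hF2, hF3⟩ := hF
    set z0 : Ax n e (hz j) := (⟨0, by positivity⟩, ⟨0, by omega⟩) with hz0
    set z1 : Ax n e (ho j) := (⟨0, by positivity⟩, ⟨0, by omega⟩) with hz1
    set α0 : ∀ h, Ax n e h := Function.update (Function.update α0' (hz j) z0) (ho j) z1 with hα0
    have ea : α0 (hz j) = z0 := by
      rw [hα0, Function.update_of_ne (hz_ne_ho j), Function.update_self]
    have eb : α0 (ho j) = z1 := by
      rw [hα0, Function.update_self]
    have hup : ∀ x x', Function.update (Function.update α0 (hz j) x) (ho j) x' =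
        Function.update (Function.update α0' (hz j) x) (ho j) x' := by
      intro x x'
      funext h
      by_cases h3 : h = ho j
      · subst h3
        rw [Function.update_self, Function.update_self]
      · rw [Function.update_of_ne h3, Function.update_of_ne h3]
        by_cases h4 : h = hz j
        · subst h4
          rw [Function.update_self, Function.update_self]
        · rw [Function.update_of_ne h4, Function.update_of_ne h4, hα0,
            Function.update_of_ne h3, Function.update_of_ne h4]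
    set p : Fin (k0 * 4 ^ e j.val) := ⟨N0 n (e j.val) - (i + 2 * μ.val), by omega⟩ with hp
    set p' : Fin (k0 * 4 ^ e j.val) := ⟨N0 n (e j.val) - (i' + 2 * μ'.val), by omega⟩ with hp'
    have hi : N0 n (e j.val) - 2 * μ.val - p.val = i := by
      rw [hp]
      show N0 n (e j.val) - 2 * μ.val - (N0 n (e j.val) - (i + 2 * μ.val)) = i
      omega
    have hi' : N0 n (e j.val) - 2 * μ'.val - p'.val = i' := by
      rw [hp']
      show N0 n (e j.val) - 2 * μ'.val - (N0 n (e j.val) - (i' + 2 * μ'.val)) = i'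
      omega
    have hrow := congrFun hξ (⟨j, ⟨α0, by
      rw [ea, eb]
      exact ⟨rfl, rfl, rfl, rfl⟩⟩, l, l', μ, μ', p, p', ⟨g, hg⟩, ⟨g', hg'⟩⟩ : Rows n k0 e)
    have hK := congrArg (algebraMap (𝓞 K) K) hrow
    rw [Matrix.mulVec, dotProduct, map_sum] at hK
    have hK2 : ∑ u : Idx n n n e, (if (∀ h, h ≠ hz j → h ≠ ho j → u.1 h = α0 h) then
        ent D n e G j l l' μ μ' i i' g g' (u.1 (hz j)) (u.1 (ho j)) u.2 *
          ((ξ u : 𝓞 K) : K) else 0) = 0 := by
      refine Eq.trans (Finset.sum_congr rfl fun u _ => ?_) (hK.trans (map_zero _))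
      rw [map_mul]
      show _ = entK D n k0 e G _ u * ((ξ u : 𝓞 K) : K)
      unfold entK
      simp only [hi, hi']
      split_ifs
      · rfl
      · rw [zero_mul]
    rw [Fintype.sum_prod_type] at hK2
    have hK3 : ∑ α : ∀ h, Ax n e h, (if (∀ h, h ≠ hz j → h ≠ ho j → α h = α0 h) then
        ∑ β : Fin 2 → Fin n, ent D n e G j l l' μ μ' i i' g g' (α (hz j)) (α (ho j)) β *
          ((ξ (α, β) : 𝓞 K) : K) else 0) = 0 := by
      refine Eq.trans (Finset.sum_congr rfl fun α _ => ?_) hK2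
      by_cases h3 : ∀ h, h ≠ hz j → h ≠ ho j → α h = α0 h
      · rw [if_pos h3]
        refine Finset.sum_congr rfl fun β _ => ?_
        exact (if_pos h3).symm
      · rw [if_neg h3]
        symm
        refine Finset.sum_eq_zero fun β _ => ?_
        exact if_neg h3
    have hK4 := sum_blk (fun h => Ax n e h) (hz j) (ho j) (hz_ne_ho j) α0 (fun α =>
      ∑ β : Fin 2 → Fin n, ent D n e G j l l' μ μ' i i' g g' (α (hz j)) (α (ho j)) β *
          ((ξ (α, β) : 𝓞 K) : K))
    have hK5 := hK4.symm.trans (Eq.trans (Finset.sum_congr rfl fun α _ => by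
      by_cases h3 : ∀ h, h ≠ hz j → h ≠ ho j → α h = α0 h
      · rw [if_pos h3, if_pos h3]
      · rw [if_neg h3, if_neg h3]) hK3)
    have hE : ((D 0 : K) ^ (4 ^ e j.val * n) * (D 1 : K) ^ (4 ^ e j.val * n)) ≠ 0 := by
      have h3 : (D 0 : K) ≠ 0 := Nat.cast_ne_zero.2 (hD 0).ne'
      have h4 : (D 1 : K) ≠ 0 := Nat.cast_ne_zero.2 (hD 1).ne'
      exact mul_ne_zero (pow_ne_zero _ h3) (pow_ne_zero _ h4)
    refine (mul_eq_zero.1 (Eq.trans ?_ hK5)).resolve_left hE
    rw [Finset.mul_sum]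
    refine Finset.sum_congr rfl fun x _ => ?_
    rw [Finset.mul_sum]
    refine Finset.sum_congr rfl fun x' _ => ?_
    rw [Finset.mul_sum]
    refine Finset.sum_congr rfl fun β _ => ?_
    rw [hup, Function.update_self, Function.update_of_ne (hz_ne_ho j), Function.update_self]
    unfold ent
    ring

end

end Pool.Agent.Helper2.SGC1
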